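import Mathlib
import Pool.Agent.H23.RN2
import Pool.Agent.H23.Tow

set_option autoImplicit false

open FirstOrder FirstOrder.Language Set

namespace Pool.Agent.Results.MP_b29b59_lc.Exists

/-- Every subset definable with parameters is a finite union of convex sets. -/
def WeaklyOMinimal (L : FirstOrder.Language.{0, 0}) (M : Type) [L.Structure M] [LinearOrder M] :
    Prop :=
  ∀ X : Set M, (univ : Set M).Definable₁ L X →
    ∃ F : Set (Set M), F.Finite ∧ (∀ C ∈ F, C.OrdConnected) ∧ X = ⋃₀ F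

/-- The complete theory of `M` has one countably infinite model up to isomorphism. -/
def CountCat (L : FirstOrder.Language.{0, 0}) (M : Type) [L.Structure M] : Prop :=
  Cardinal.Categorical (Cardinal.aleph0 : Cardinal.{0}) (L.completeTheory M)

/-- The language with one unary predicate symbol. -/
def LU : FirstOrder.Language.{0, 0} := ⟨fun _ => Empty, fun n => PLift (n = 1)⟩

/-- The expansion `(M, U)`. -/
@[reducible] def expand (L : FirstOrder.Language.{0, 0}) {M : Type} [L.Structure M] (U : Set M) :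
    (L.sum LU).Structure M :=
  letI : LU.Structure M := ⟨fun f => f.elim, fun _ x => ∀ i, x i ∈ U⟩
  inferInstance

open Pool.Agent.H23 Pool.Agent.H23.Tow

def L : FirstOrder.Language.{0, 0} := ⟨fun _ => Empty, fun n => Fin n → ℚ⟩

instance str : L.Structure ℚ := ⟨fun f => f.elim, fun a x => Good (range fun i => (a i, x i))⟩

instance : Countable L.Symbols :=
  inferInstanceAs (Countable ((Σ _ : ℕ, Empty) ⊕ (Σ n : ℕ, Fin n → ℚ)))

instance : Countable (L.sum LU).Symbols :=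
  inferInstanceAs (Countable ((Σ _ : ℕ, Empty ⊕ Empty) ⊕ (Σ n : ℕ, (Fin n → ℚ) ⊕ PLift (n = 1))))

theorem auts {R : Set (ℚ × ℚ)} (f : R.Finite) (h : Good R) :
    ∃ g : ℚ ≃[L] ℚ, ∀ p ∈ R, g p.1 = p.2 := by
  obtain ⟨g, hg⟩ := UC.bf (fun R' => R ⊆ R' ∧ R'.Finite ∧ Good R')
    (fun R' h p a q b => h.2.2.oi.eq a b) (fun R' h x => by
      obtain ⟨y, a⟩ := ext _ R' h.2.1 rfl h.2.2 x
      exact ⟨_, subset_insert _ _, ⟨h.1.trans (subset_insert _ _), h.2.1.insert _, a⟩, y,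
        mem_insert _ _⟩) (fun R' h y => by
      obtain ⟨x, a⟩ := ext _ _ (h.2.1.image _) rfl h.2.2.symm y
      refine ⟨_, subset_insert _ _, ⟨h.1.trans (subset_insert _ _), h.2.1.insert (x, y),
        a.symm.mono ?_⟩, x, mem_insert _ _⟩
      rintro p (rfl | b)
      · exact ⟨_, Or.inl rfl, rfl⟩
      · exact ⟨_, Or.inr (mem_image_of_mem _ b), rfl⟩) R ⟨subset_rfl, f, h⟩
  refine ⟨⟨g, fun f => f.elim, fun {n} a x => ?_⟩, fun p hp => ?_⟩
  · obtain ⟨R', b, c⟩ := hg (List.ofFn x)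
    have d : ∀ i, (x i, g (x i)) ∈ R' := fun i => c _ (by simp)
    refine ⟨fun e => (Good.comp e b.2.2.symm).mono ?_, fun e => (Good.comp e b.2.2).mono ?_⟩
    · rintro _ ⟨i, rfl⟩
      exact ⟨_, ⟨i, rfl⟩, _, d i, rfl⟩
    · rintro _ ⟨i, rfl⟩
      exact ⟨_, ⟨i, rfl⟩, d i⟩
  · obtain ⟨R', a, b⟩ := hg [p.1]
    exact (a.2.2.oi.eq (b _ (by simp)) (a.1 hp)).1 rfl

theorem ft : RN.FT L ℚ := fun k => by
  obtain ⟨F, a, b⟩ := classes (Fin k)
  refine ⟨a.toFinset, fun x => ?_⟩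
  obtain ⟨y, c, d⟩ := b x
  obtain ⟨g, e⟩ := auts (finite_range _) d
  refine ⟨y, by simpa using c, fun φ => ?_⟩
  rw [show y = g ∘ x from funext fun i => (e _ ⟨i, rfl⟩).symm]
  exact (StrongHomClass.realize_formula g φ).symm

theorem wom : WeaklyOMinimal L ℚ := by
  intro X hX
  obtain ⟨A, -, hA⟩ := definable_iff_finitely_definable.1 hX
  obtain ⟨φ, hφ⟩ := definable_iff_exists_formula_sum.1 hA
  set Δ : Set (ℚ × ℚ) := (fun a => (a, a)) '' A
  have fΔ : Δ.Finite := A.finite_toSet.image _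
  have inv : ∀ x y, Good (insert (x, y) Δ) → x ∈ X → y ∈ X := fun x y h hx => by
    obtain ⟨g, e⟩ := auts (fΔ.insert _) h
    have a := (Set.ext_iff.1 hφ fun _ => x).1 hx
    refine (Set.ext_iff.1 hφ fun _ => y).2 ?_
    have b := (StrongHomClass.realize_formula g φ).2 a
    have c : g ∘ Sum.elim (Subtype.val : ↥(A : Set ℚ) → ℚ) (fun _ : Fin 1 => x) =
        Sum.elim Subtype.val fun _ => y := by
      funext i
      rcases i with i | i
      · exact e _ (Or.inr ⟨i.1, i.2, rfl⟩)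
      · exact e _ (Or.inl rfl)
    rwa [c] at b
  obtain ⟨F, a, b⟩ := classes (Option A)
  let cl : (Option A → ℚ) → Set ℚ := fun w => {y | Good (insert (w none, y)
    (range fun i : A => (w (some i), i.1)))}
  have mem : ∀ x, ∃ w ∈ F, x ∈ cl w := fun x => by
    obtain ⟨w, c, d⟩ := b fun o => o.elim x Subtype.val
    refine ⟨w, c, d.symm.mono ?_⟩
    rintro _ (rfl | ⟨i, rfl⟩)
    · exact ⟨_, ⟨none, rfl⟩, rfl⟩
    · exact ⟨_, ⟨some i, rfl⟩, rfl⟩
  refine ⟨{C ∈ cl '' F | C ⊆ X}, (a.image _).subset (sep_subset _ _), ?_,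
    subset_antisymm (fun x hx => ?_) (sUnion_subset fun C hC => hC.2)⟩
  · rintro _ ⟨⟨w, -, rfl⟩, -⟩
    exact ⟨fun y hy y' hy' z hz => conv _ _ (finite_range _) rfl _ _ _ _ hy hy' hz.1 hz.2⟩
  · obtain ⟨w, c, d⟩ := mem x
    refine ⟨_, ⟨mem_image_of_mem _ c, fun y hy => inv x y ((Good.comp d.symm hy).mono ?_) hx⟩, d⟩
    rintro _ (rfl | ⟨i, hi, rfl⟩)
    · exact ⟨_, ⟨_, Or.inl rfl, rfl⟩, Or.inl rfl⟩
    · exact ⟨_, ⟨_, Or.inr ⟨⟨i, hi⟩, rfl⟩, rfl⟩, Or.inr ⟨⟨i, hi⟩, rfl⟩⟩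

/-- Q1 holds: a countably categorical weakly o-minimal structure with a convex subset whose
expansion is not countably categorical. -/
theorem result : ∃ (L : FirstOrder.Language.{0, 0}) (M : Type) (_ : L.Structure M)
    (_ : LinearOrder M) (U : Set M), Countable L.Symbols ∧ Countable M ∧ Infinite M ∧
    (∃ r : L.Relations 2, ∀ x y : M, Structure.RelMap r ![x, y] ↔ x < y) ∧
    WeaklyOMinimal L M ∧ CountCat L M ∧ U.OrdConnected ∧
    ¬ @CountCat (L.sum LU) M (expand L U) := by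
  obtain ⟨U, hU⟩ := exists_fix
  refine ⟨L, ℚ, str, inferInstance, U, inferInstance, inferInstance, inferInstance,
    ⟨![0, 1], fun x y => ⟨fun h => ?_, fun h => ?_⟩⟩, wom, RN.cat ft,
    (hU ▸ Ψ_low _ : IsLowerSet U).ordConnected, fun hc => ?_⟩
  · exact (Good.oi h _ ⟨0, rfl⟩ _ ⟨1, rfl⟩).1 (by simp)
  · refine (good_lt (p := (0, x)) (q := (1, y)) (by simp) h).mono ?_
    rintro _ ⟨i, rfl⟩
    fin_cases i <;> simp
  let := expand L U
  have hF : RN.FT (L.sum LU) ℚ := RN.fin_types hc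
  obtain ⟨F, a⟩ := hF 1
  choose w b c using a
  obtain ⟨j, k, d, e⟩ : ∃ j k, j < k ∧ w (fun _ => yy j) = w fun _ => yy k := by
    obtain ⟨j, -, k, -, d, e⟩ := infinite_univ.exists_ne_map_eq_of_mapsTo
      (f := fun j => w fun _ => yy j) (fun j _ => Finset.mem_coe.2 (b _)) F.finite_toSet
    exact d.lt_or_gt.elim (fun d => ⟨j, k, d, e⟩) fun d => ⟨k, j, d, e.symm⟩
  obtain ⟨g, f⟩ := RN.homog hF (x := fun _ : Fin 1 => yy j) (y := fun _ => yy k)
    fun φ => (c _ φ).trans (e ▸ (c _ φ).symm)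
  refine sep j k U (Ψ U) (range fun x => (x, g x)) ⟨hU, rfl, good_loc fun R r1 r2 => ?_,
    fun x => ⟨_, x, rfl⟩, fun y => ⟨g.symm y, g.symm y, by simp⟩, ?_⟩ d
    ⟨yy j, congrArg (Prod.mk _) (f 0)⟩
  · obtain ⟨n, x, -, hx⟩ := r2.fin_param
    have := (g.map_rel (Sum.inl (fun i => (x i).1) : (L.sum LU).Relations n)
      fun i => (x i).1).2 (good_diag.mono (by rintro _ ⟨i, rfl⟩; rfl))
    refine Good.mono this fun p hp => ?_
    obtain ⟨i, rfl⟩ := hx.symm.subset hp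
    obtain ⟨z, hz⟩ := r1 hp
    exact ⟨i, by simp [← hz]⟩
  · rintro _ ⟨x, rfl⟩
    have := g.map_rel (Sum.inr ⟨rfl⟩ : (L.sum LU).Relations 1) fun _ => x
    exact ⟨fun h => this.2 (fun _ => h) 0, fun h => this.1 (fun _ => h) 0⟩

end Pool.Agent.Results.MP_b29b59_lc.Exists
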